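import Mathlib

namespace Pool.Agent.Results.MP_0e3340_nt.InfiniteTriples

/-- A triple of integers is multiplicatively dependent if `a^k₁ b^k₂ c^k₃ = 1` (in `ℚ`) for some
integers `k₁, k₂, k₃`, not all zero. -/
def MultDep (a b c : ℤ) : Prop :=
  ∃ k₁ k₂ k₃ : ℤ, ¬ (k₁ = 0 ∧ k₂ = 0 ∧ k₃ = 0) ∧
    (a : ℚ) ^ k₁ * (b : ℚ) ^ k₂ * (c : ℚ) ^ k₃ = 1

/-- Admissible triples. -/
def Admissible (a b c : ℤ) : Prop :=
  1 < a ∧ 1 < b ∧ 1 < c ∧ a ≠ b ∧ a ≠ c ∧ b ≠ c ∧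
  ¬ (({2, 8} : Set ℤ) ⊆ {a, b, c}) ∧
  MultDep a b c ∧ MultDep (a + 1) (b + 1) (c + 1) ∧ MultDep (a + 2) (b + 2) (c + 2)

/-- There are infinitely many admissible triples `(a, b, c)` with `a < b < c`. -/
theorem result : {t : ℤ × ℤ × ℤ | t.1 < t.2.1 ∧ t.2.1 < t.2.2 ∧
    Admissible t.1 t.2.1 t.2.2}.Infinite := by
  have hinj : Function.Injective
      (fun j : ℕ => ((2 : ℤ), (2 : ℤ) ^ (j + 3) - 2, ((2 : ℤ) ^ (j + 3) - 1) ^ 2 - 1)) := by
    intro i j hij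
    simp only [Prod.mk.injEq, true_and] at hij
    have h1 : (2 : ℤ) ^ (i + 3) = 2 ^ (j + 3) := by linarith [hij.1]
    have h2 := Int.pow_right_injective (by norm_num) h1
    omega
  apply (Set.infinite_range_of_injective hinj).mono
  rintro _ ⟨j, rfl⟩
  have h8 : (8 : ℤ) ≤ 2 ^ (j + 3) := by
    calc (8 : ℤ) = 2 ^ 3 := by norm_num
    _ ≤ 2 ^ (j + 3) := pow_le_pow_right₀ (by norm_num) (by omega)
  have h10 : (2 : ℤ) ^ (j + 3) ≠ 10 := by
    intro h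
    rcases Nat.eq_zero_or_pos j with rfl | hj
    · norm_num at h
    · have : (16 : ℤ) ≤ 2 ^ (j + 3) := by
        calc (16 : ℤ) = 2 ^ 4 := by norm_num
        _ ≤ 2 ^ (j + 3) := pow_le_pow_right₀ (by norm_num) (by omega)
      omega
  simp only [Set.mem_ofPred_eq]
  generalize hx : (2 : ℤ) ^ (j + 3) = x at h8 h10 ⊢
  have hc : x - 2 < (x - 1) ^ 2 - 1 := by nlinarith
  refine ⟨by omega, hc, by omega, by omega, by omega, by omega, by omega, by omega, ?_, ?_, ?_, ?_⟩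
  · intro hsub
    have : (8 : ℤ) ∈ ({2, x - 2, (x - 1) ^ 2 - 1} : Set ℤ) := hsub (by simp)
    simp only [Set.mem_insert_iff, Set.mem_singleton_iff] at this
    rcases this with h | h | h
    · omega
    · omega
    · nlinarith
  · -- `2 ^ (j+3) * b = c`
    refine ⟨(j + 3 : ℕ), 1, -1, by simp, ?_⟩
    have h1 : ((2 : ℤ) : ℚ) ^ ((j + 3 : ℕ) : ℤ) = (x : ℚ) := by
      rw [zpow_natCast, ← hx]
      push_cast
      ring
    rw [h1, zpow_one, zpow_neg_one]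
    have h2 : (((x - 1) ^ 2 - 1 : ℤ) : ℚ) = (x : ℚ) * ((x - 2 : ℤ) : ℚ) := by
      push_cast
      ring
    rw [h2]
    apply mul_inv_cancel₀
    have hx0 : (x : ℚ) ≠ 0 := by
      exact_mod_cast (show x ≠ 0 by omega)
    have hx2 : ((x - 2 : ℤ) : ℚ) ≠ 0 := by
      exact_mod_cast (show x - 2 ≠ 0 by omega)
    exact mul_ne_zero hx0 hx2
  · refine ⟨0, 2, -1, by simp, ?_⟩
    have h2 : (((x - 1) ^ 2 - 1 + 1 : ℤ) : ℚ) = ((x - 2 + 1 : ℤ) : ℚ) ^ (2 : ℤ) := by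
      rw [show (2 : ℤ) = ((2 : ℕ) : ℤ) by norm_num, zpow_natCast]
      push_cast
      ring
    rw [h2, zpow_zero, one_mul, zpow_neg_one]
    apply mul_inv_cancel₀
    apply zpow_ne_zero
    exact_mod_cast (show x - 2 + 1 ≠ 0 by omega)
  · refine ⟨(j + 3 : ℕ), -2, 0, by simp, ?_⟩
    have h1 : ((2 + 2 : ℤ) : ℚ) ^ ((j + 3 : ℕ) : ℤ) = (x : ℚ) ^ 2 := by
      rw [zpow_natCast, ← hx]
      push_cast
      rw [← pow_mul, mul_comm (j + 3) 2, pow_mul]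
      norm_num
    have h2 : ((x - 2 + 2 : ℤ) : ℚ) = (x : ℚ) := by
      push_cast
      ring
    rw [h1, h2, zpow_zero, mul_one, zpow_neg]
    rw [show (2 : ℤ) = ((2 : ℕ) : ℤ) by norm_num, zpow_natCast]
    apply mul_inv_cancel₀
    apply pow_ne_zero
    exact_mod_cast (show x ≠ 0 by omega)

end Pool.Agent.Results.MP_0e3340_nt.InfiniteTriples
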